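import Mathlib
import Pool.Agent.Lib.P92898d.Main

/-!
Problem MP_92898d_an, Q1 (ranges of cardinality functions of absolutely convergent series).

We determine all sets `C` containing the continuum that occur as the range of a cardinality
function, and we show that the same conditions are necessary for every range.

Idea of the construction (positive terms).  Fix `n k ≥ 1` and a sequence of reals that is linearly
independent over the rationals.  All tail sums `T k` and two special points `v k < z k` of the tail
are prescribed in advance as rational multiples of these numbers.  Level `k` has `n k` equal terms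
`a k` and four further terms `b k, c k, d k, e k`, chosen so that every point of `[0, T k]` is
covered twice, with generic differences, except near points with explicit forced expansions: `v k`
has one expansion, `a k + v (k+1)` has `n k` expansions, and `z k` has either countably infinitely
many (each level adds one) or continuum many.  Every point outside a countable group `G k` has
continuum many expansions, because unique expansions can only occur inside `G k`.
-/

namespace Pool.Agent.Results.MP_92898d_an.ContinuumRanges

open Cardinal Set

/-- The subsum `∑ ε n * x n` of the series `x` selected by the 0-1 sequence `ε`. -/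
noncomputable def subsum (x : ℕ → ℝ) (ε : ℕ → Bool) : ℝ := ∑' n, (if ε n then x n else 0)

/-- The cardinality function `F_x` of the series `x`. -/
noncomputable def cardFun (x : ℕ → ℝ) (t : ℝ) : Cardinal.{0} := #{ε : ℕ → Bool | subsum x ε = t}

/-- `C` is the range of the cardinality function of an absolutely convergent real series. -/
def IsRange (C : Set Cardinal.{0}) : Prop :=
  ∃ x : ℕ → ℝ, Summable (fun n => |x n|) ∧ Set.range (cardFun x) = C

/-- `C ⊆ {0, 1, 2, …, ℵ₀, 𝔠}` contains `0` and some power `2 ^ k` that divides every finite
member of `C`. -/
def Admissible (C : Set Cardinal.{0}) : Prop :=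
  0 ∈ C ∧ (∀ κ ∈ C, κ < ℵ₀ ∨ κ = ℵ₀ ∨ κ = 𝔠) ∧
    ∃ k : ℕ, ((2 ^ k : ℕ) : Cardinal.{0}) ∈ C ∧ ∀ n : ℕ, (n : Cardinal.{0}) ∈ C → 2 ^ k ∣ n

/-- **Result.**  Every range `C` is `{0, 𝔠}` or admissible; conversely, if `𝔠 ∈ C`, then `C` is a
range if and only if `C = {0, 𝔠}` or `C` is admissible. -/
theorem result :
    (∀ C : Set Cardinal.{0}, IsRange C → C = {0, 𝔠} ∨ Admissible C) ∧
    (∀ C : Set Cardinal.{0}, 𝔠 ∈ C → (IsRange C ↔ (C = {0, 𝔠} ∨ Admissible C))) :=
  ⟨fun _ h => Pool.Agent.Lib.P92898d.necessity h,
    fun _ hc => Pool.Agent.Lib.P92898d.range_iff hc⟩

end Pool.Agent.Results.MP_92898d_an.ContinuumRanges
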