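import Mathlib
import Pool.Agent.Lib.RNG.Count

/-!
Problem MP_92898d_an, Q1 (ranges of cardinality functions of absolutely convergent series).

Ranges that contain `ℵ₀` but not the continuum: there are absolutely convergent series all of whose
fibres are countable while some fibres are infinite; the set `{2 ^ k * n : n ∈ ℕ} ∪ {ℵ₀}` is a range
for every `k`.

Idea of the construction.  With real numbers `τ j` that decrease fast enough,
`x n = ∑ j, τ j * y j n` defines, for every sequence of finitely supported integer rows `y j`, a
series such that two expansions have the same sum if and only if all the rows agree on them.  We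
take places `(r, j)` (`r, j ∈ ℕ`) with the rows `e (r, j) - e (r, j + 1)`, so that the difference of
two expansions with the same sum is an integer `α r` at all places `(r, j)`, and a further place for
each of the functionals `α r + α s` (`r ≠ s`), with a row that forces the difference there to be
`α r + α s`.  All these numbers have absolute value at most `1`, so `α` has at most two nonzero
coordinates and all fibres are countable; the fibre of a suitable expansion that allows exactly the
coordinates `r ∈ P` has `|P| + 1` elements.  Zero terms multiply all values by a power of two.
-/

namespace Pool.Agent.Results.MP_92898d_an.CountableFibres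

open Cardinal Set

/-- The subsum `∑ ε n * x n` of the series `x` selected by the 0-1 sequence `ε`. -/
noncomputable def subsum (x : ℕ → ℝ) (ε : ℕ → Bool) : ℝ := ∑' n, (if ε n then x n else 0)

/-- The cardinality function `F_x` of the series `x`. -/
noncomputable def cardFun (x : ℕ → ℝ) (t : ℝ) : Cardinal.{0} := #{ε : ℕ → Bool | subsum x ε = t}

/-- `C` is the range of the cardinality function of an absolutely convergent real series. -/
def IsRange (C : Set Cardinal.{0}) : Prop :=
  ∃ x : ℕ → ℝ, Summable (fun n => |x n|) ∧ Set.range (cardFun x) = C

/-- **Result.**  For every `k` the set `{2 ^ k * n : n ∈ ℕ} ∪ {ℵ₀}` is a range. -/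
theorem result (k : ℕ) :
    IsRange (insert ℵ₀ (Set.range (fun n : ℕ => ((2 ^ k * n : ℕ) : Cardinal.{0})))) :=
  Pool.Agent.Lib.RNG.isRange_mul_aleph0 k

end Pool.Agent.Results.MP_92898d_an.CountableFibres
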