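import Mathlib
import Pool.Agent.Lib.RNG.Lists

/-!
Problem MP_92898d_an, Q1 (ranges of cardinality functions of absolutely convergent series).

A criterion that produces very many ranges without infinite members.  Examples:

* `{0, 1, …, l} ∪ M` for every `l` and every set `M` of integers between `l` and `2 * l`
  (alternative (i) below, `b` empty), hence also its multiples by `2 ^ k` (`b` = `k` zeros);
* all of `{0, 1, 2, …}`;
* `{0} ∪ {2 ^ j : j ≥ 0}` (alternative (ii), lists `[1, 1, 3, 3, 9, 9, …, 3 ^ j, 3 ^ j]`);
* `{0}` together with the coefficients of `∏ (1 + z ^ (b i))` for every finite list `b` of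
  integers (`C = {0, 1}`), for instance `{0, 1, 4, 6}`.

Idea of the proof.  With real numbers `τ j` that decrease fast enough, `x n = ∑ j, τ j * y j n`
defines, for every sequence of finitely supported integer rows `y j`, a series such that two
expansions have the same sum if and only if all the rows agree on them.  For a set of lists we
choose rows such that the differences of two expansions with the same sum are integer vectors that
are supported on one list `a`, satisfy the linear equation with the coefficients `a`, and can be
switched off at each position of `a`.  So the fibres correspond to the representations of an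
integer by the sublists of `a`.  For `m ≥ 3` a list with counts `≤ l` or `= m`
(`l = m / 2 + 1`) comes from the points `1, …, m` and the subsets of them with `l - 1` or `l`
elements: the only differences are those of two points.
-/

namespace Pool.Agent.Results.MP_92898d_an.FiniteFibres

open Cardinal Set

/-- The subsum `∑ ε n * x n` of the series `x` selected by the 0-1 sequence `ε`. -/
noncomputable def subsum (x : ℕ → ℝ) (ε : ℕ → Bool) : ℝ := ∑' n, (if ε n then x n else 0)

/-- The cardinality function `F_x` of the series `x`. -/
noncomputable def cardFun (x : ℕ → ℝ) (t : ℝ) : Cardinal.{0} := #{ε : ℕ → Bool | subsum x ε = t}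

/-- `C` is the range of the cardinality function of an absolutely convergent real series. -/
def IsRange (C : Set Cardinal.{0}) : Prop :=
  ∃ x : ℕ → ℝ, Summable (fun n => |x n|) ∧ Set.range (cardFun x) = C

/-- `reps b s` is the number of ways to choose some of the positions of the list `b` such that the
sum of the terms at the chosen positions is `s`. -/
def reps : List ℤ → ℤ → ℕ
  | [], s => if s = 0 then 1 else 0
  | x :: b, s => reps b s + reps b (s - x)

theorem reps_eq (b : List ℤ) (s : ℤ) : reps b s = Pool.Agent.Lib.RNG.repsL b s := by
  induction b generalizing s with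
  | nil => rfl
  | cons x b ih => rw [reps, Pool.Agent.Lib.RNG.repsL, ih, ih]

/-- **Result.**  Let `C` be a set of natural numbers that contains `0` and `1`, and suppose that
for every `m ≥ 2` in `C` (i) all natural numbers `j ≤ m / 2 + 1` belong to `C`, or
(ii) `m = reps a t` for some finite list `a` of integers and some `t` such that all the numbers
`reps a' t'` with `a'` a sublist of `a` belong to `C`.  Then for every finite list `b` of integers
`{reps b s * m : s ∈ ℤ, m ∈ C}` is a range. -/
theorem result (b : List ℤ) (C : Set ℕ) (h0 : 0 ∈ C) (h1 : 1 ∈ C)
    (h : ∀ m ∈ C, 2 ≤ m → (∀ j : ℕ, 2 * j ≤ m + 2 → j ∈ C) ∨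
      ∃ a : List ℤ, (∀ a' : List ℤ, a'.Sublist a → ∀ t : ℤ, reps a' t ∈ C) ∧
        ∃ t : ℤ, reps a t = m) :
    IsRange {κ : Cardinal.{0} | ∃ s : ℤ, ∃ m ∈ C, κ = ((reps b s * m : ℕ) : Cardinal.{0})} := by
  simp only [reps_eq] at h ⊢
  exact Pool.Agent.Lib.RNG.isRange_criterion b h0 h1 h

end Pool.Agent.Results.MP_92898d_an.FiniteFibres
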