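import Mathlib
import Pool.Agent.Lib.RNG.Three
import Pool.Agent.Lib.RNGT.Top
import Pool.Agent.Lib.RNGT.Sharp

/-!
Problem MP_92898d_an, Q1 (ranges of cardinality functions of absolutely convergent series).

A necessary condition on the ranges that consist of finitely many natural numbers: the largest
member is at most three times the second largest one (if the latter is positive).  The factor three
is sharp, at all places of a long chain at once: `{0, 1, 3, 9, ..., 3 ^ j}` is a range.  The
three-element ranges with finite members are determined completely.

Idea of the proof.  Remove the zero terms and let `M > 3 m`.  For each term the part of a fibre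
that uses the term is carried by a translation onto the part of a neighbouring fibre that does not.
Since no arithmetic progression consists of values of subsums, no term splits a fibre into two parts
with more than `m` elements each.  So each largest fibre has a majority digit at every term, and
changing a majority digit leads to a largest fibre again.  By compactness the majority sequence
belongs to the fibre.  Outside some finite set of terms the same holds for all values of the digits
on a larger finite set `A`; comparing the extreme choices, all digits zero and all digits one on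
`A`, one gets that the sum of the terms outside `A` is at least twice the smallest term in `A`.
This makes the terms so dense (Kakeya's condition, with a factor two) that the fibres are not
bounded, a contradiction.
-/

namespace Pool.Agent.Results.MP_92898d_an.TopRatio

open Cardinal Set

/-- The subsum `∑ ε n * x n` of the series `x` selected by the 0-1 sequence `ε`. -/
noncomputable def subsum (x : ℕ → ℝ) (ε : ℕ → Bool) : ℝ := ∑' n, (if ε n then x n else 0)

/-- The cardinality function `F_x` of the series `x`. -/
noncomputable def cardFun (x : ℕ → ℝ) (t : ℝ) : Cardinal.{0} := #{ε : ℕ → Bool | subsum x ε = t}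

/-- `C` is the range of the cardinality function of an absolutely convergent real series. -/
def IsRange (C : Set Cardinal.{0}) : Prop :=
  ∃ x : ℕ → ℝ, Summable (fun n => |x n|) ∧ Set.range (cardFun x) = C

/-- **Result.**

(1) If `C` is a range, `m` and `M` are natural numbers in `C` with `m > 0` and every member of `C`
is at most `m` or equal to `M`, then `M ≤ 3 m`.

(2) For every `j` the set `{0} ∪ {1, 3, 9, ..., 3 ^ j}` is a range.

(3) For natural numbers `0 < a < b` the set `{0, a, b}` is a range if and only if `a = 2 ^ k` and
`b = 2 * 2 ^ k` or `b = 3 * 2 ^ k` for some `k`. -/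
theorem result :
    (∀ (C : Set Cardinal.{0}) (m M : ℕ), IsRange C → 0 < m →
      (m : Cardinal.{0}) ∈ C → (M : Cardinal.{0}) ∈ C →
      (∀ κ ∈ C, κ ≤ (m : Cardinal.{0}) ∨ κ = (M : Cardinal.{0})) → M ≤ 3 * m) ∧
    (∀ j : ℕ, IsRange (insert 0 {κ : Cardinal.{0} | ∃ i ≤ j, κ = ((3 ^ i : ℕ) : Cardinal.{0})})) ∧
    (∀ a b : ℕ, 0 < a → a < b →
      (IsRange {0, (a : Cardinal.{0}), (b : Cardinal.{0})} ↔
        ∃ k : ℕ, a = 2 ^ k ∧ (b = 2 * 2 ^ k ∨ b = 3 * 2 ^ k))) :=
  ⟨fun _ _ _ hC hm hmC hMC hall => Pool.Agent.Lib.RNGT.top_ratio hC hm hmC hMC hall,
   fun j => Pool.Agent.Lib.RNGT.isRange_pow_three j,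
   fun _ _ ha hab => Pool.Agent.Lib.RNG.three_iff ha hab⟩

end Pool.Agent.Results.MP_92898d_an.TopRatio
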